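import Pool.Agent.Helper77.KZ.Defs
import Pool.Agent.Helper18.Katz1

/-!
Support file for MP_0aa406_nt (project KZ of helper77), written by helper55: the Niho case.
-/

set_option autoImplicit false

namespace Pool.Agent.Helper55.KZ

open Finset

variable {n : ℕ}

/-- finitely many linear forms which do not vanish on the antisymmetric vectors have a common
nonzero -/
theorem exists_antisymm [NeZero n] {ι : Type} [DecidableEq ι] (κ : ZMod n) (hκ : κ + κ = 0)
    (hκ0 : κ ≠ 0) (w : ι → ZMod n → ℤ) (S : Finset ι) (hw : ∀ v ∈ S, ∃ j, w v j ≠ w v (j + κ)) :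
    ∃ a : ZMod n → ℤ, (∀ j, a (j + κ) = -a j) ∧ ∀ v ∈ S, ∑ j, w v j * a j ≠ 0 := by
  induction S using Finset.induction_on with
  | empty => exact ⟨fun _ => 0, by simp, by simp⟩
  | insert v₀ S hv₀ ih =>
    obtain ⟨a, ha, haS⟩ := ih (fun v hv => hw v (mem_insert_of_mem hv))
    by_cases h0 : ∑ j, w v₀ j * a j = 0
    · obtain ⟨j₀, hj₀⟩ := hw v₀ (mem_insert_self v₀ S)
      have hne : j₀ ≠ j₀ + κ := fun h => hκ0 (by
        have : j₀ + 0 = j₀ + κ := by rw [add_zero]; exact h
        exact (add_left_cancel this).symm)
      set b : ZMod n → ℤ := fun j => if j = j₀ then 1 else if j = j₀ + κ then -1 else 0 with hb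
      have hbanti : ∀ j, b (j + κ) = -b j := by
        intro j
        have e1 : j + κ = j₀ ↔ j = j₀ + κ := by
          constructor
          · intro h; rw [← h, add_assoc, hκ, add_zero]
          · intro h; rw [h, add_assoc, hκ, add_zero]
        have e2 : j + κ = j₀ + κ ↔ j = j₀ := add_left_inj κ
        simp only [hb, e1, e2]
        by_cases h1 : j = j₀
        · have h2 : ¬ j = j₀ + κ := by rw [h1]; exact hne
          simp [h1, hne]
        · by_cases h2 : j = j₀ + κ
          · simp [h2, hne.symm]
          · simp [h1, h2]
      have hform : ∀ u : ZMod n → ℤ, ∑ j, u j * b j = u j₀ - u (j₀ + κ) := by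
        intro u
        have h1 : ∀ j, u j * b j = (if j = j₀ then u j else 0) - (if j = j₀ + κ then u j else 0) := by
          intro j
          simp only [hb]
          by_cases h1 : j = j₀
          · have h2 : ¬ j = j₀ + κ := by rw [h1]; exact hne
            simp [h1, hne]
          · by_cases h2 : j = j₀ + κ
            · simp [h2, hne.symm]
            · simp [h1, h2]
        simp only [h1, Finset.sum_sub_distrib, Finset.sum_ite_eq', mem_univ, if_true]
      set N : ℤ := 1 + ∑ v ∈ S, |∑ j, w v j * b j| with hN
      have hNpos : ∀ v ∈ S, |∑ j, w v j * b j| < N := by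
        intro v hv
        have := Finset.single_le_sum (f := fun v => |∑ j, w v j * b j|)
          (fun _ _ => abs_nonneg _) hv
        rw [hN]; linarith
      have hlin : ∀ v, ∑ j, w v j * (N * a j + b j) = N * (∑ j, w v j * a j) + ∑ j, w v j * b j := by
        intro v
        rw [Finset.mul_sum, ← Finset.sum_add_distrib]
        exact Finset.sum_congr rfl fun j _ => by ring
      refine ⟨fun j => N * a j + b j, fun j => ?_, fun v hv => ?_⟩
      · simp only [ha j, hbanti j]; ring
      · rw [hlin]
        rcases mem_insert.mp hv with rfl | hv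
        · rw [h0, mul_zero, zero_add, hform]
          exact sub_ne_zero.mpr hj₀
        · intro h
          have h1 := haS v hv
          have h2 := hNpos v hv
          have h3 : |N * ∑ j, w v j * a j| = |∑ j, w v j * b j| := by
            have : N * ∑ j, w v j * a j = -∑ j, w v j * b j := by linarith
            rw [this, abs_neg]
          rw [abs_mul] at h3
          have h4 : 1 ≤ |∑ j, w v j * a j| := Int.one_le_abs h1
          have h5 : (0 : ℤ) ≤ N := (abs_nonneg _).trans h2.le
          rw [abs_of_nonneg h5] at h3
          nlinarith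
    · refine ⟨a, ha, fun v hv => ?_⟩
      rcases mem_insert.mp hv with rfl | hv
      · exact h0
      · exact haS v hv

theorem act_eq_sum_sub [NeZero n] (m a : ZMod n → ℤ) (i : ZMod n) :
    Helper18.Katz.act m a i = ∑ j, m (j - i) * a j := by
  unfold Helper18.Katz.act
  refine Fintype.sum_equiv (Equiv.addLeft i) _ _ (fun t => ?_)
  simp

theorem hasVal_even (k : ℕ) (hk : 0 < k) (hn : n = 2 * k) [NeZero n] (m : ZMod n → ℤ) (R : ℤ)
    (hR : 0 < R)
    (hm : ∀ t : ZMod n, m t + m (t + (k : ZMod n)) = if t = 0 ∨ t = (k : ZMod n) then R else 0)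
    (hτ : 2 ≤ (univ.filter (fun i => m i ≠ 0)).card) : Helper18.Katz.HasVal m univ k := by
  classical
  set κ : ZMod n := (k : ZMod n) with hκdef
  have hκκ : κ + κ = 0 := by
    have h1 : ((2 * k : ℕ) : ZMod n) = 0 := by rw [← hn]; exact ZMod.natCast_self n
    push_cast at h1
    rw [hκdef, ← two_mul]; exact h1
  have hκ0 : κ ≠ 0 := by
    intro h
    rw [hκdef, ZMod.natCast_eq_zero_iff] at h
    have := Nat.le_of_dvd hk h
    omega
  -- the supports
  have hcardone : ∀ x : ZMod n, (∀ i, i ≠ x → m i = 0) → False := by
    intro x hx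
    have hsub : univ.filter (fun i => m i ≠ 0) ⊆ {x} := by
      intro i hi
      rw [mem_filter] at hi
      by_contra hne
      exact hi.2 (hx i (fun h => hne (mem_singleton.mpr h)))
    have := Finset.card_le_card hsub
    rw [Finset.card_singleton] at this
    omega
  -- the forms
  set w : ZMod n × Bool → ZMod n → ℤ := fun v j =>
    m (j - v.1) - (if j = v.1 then (if v.2 then R else -R) else 0) with hw
  have hnonsym : ∀ v ∈ (univ : Finset (ZMod n × Bool)), ∃ j, w v j ≠ w v (j + κ) := by
    rintro ⟨i, ε⟩ -
    by_contra hcon
    push Not at hcon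
    have hkey : ∀ t : ZMod n, m t - (if t = 0 then (if ε then R else -R) else 0) =
        m (t + κ) - (if t + κ = 0 then (if ε then R else -R) else 0) := by
      intro t
      have h1 := hcon (t + i)
      simp only [hw] at h1
      have e1 : t + i - i = t := by ring
      have e2 : t + i + κ - i = t + κ := by ring
      have e3 : t + i = i ↔ t = 0 := by
        constructor
        · intro h; simpa using h
        · intro h; rw [h, zero_add]
      have e4 : t + i + κ = i ↔ t + κ = 0 := by
        have : t + i + κ = (t + κ) + i := by ring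
        rw [this]
        constructor
        · intro h; simpa using h
        · intro h; rw [h, zero_add]
      rw [e1, e2] at h1
      simp only [e3, e4] at h1
      exact h1
    have hzero : ∀ t : ZMod n, t ≠ 0 → t ≠ κ → m t = 0 := by
      intro t h1 h2
      have h3 : ¬ (t + κ = 0) := by
        intro h
        apply h2
        have : t + κ + κ = κ := by rw [h, zero_add]
        rwa [add_assoc, hκκ, add_zero] at this
      have h4 := hkey t
      have h5 := hm t
      simp only [h1, h3, if_false] at h4
      simp only [h1, h2, or_self, if_false] at h5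
      linarith
    have h4 := hkey 0
    have h5 := hm 0
    rw [zero_add] at h4 h5
    simp only [hκ0, if_true, if_false] at h4
    simp only [true_or, if_true] at h5
    cases ε with
    | true =>
      simp only [if_true] at h4
      apply hcardone 0
      intro i hi
      by_cases h6 : i = κ
      · rw [h6]; linarith
      · exact hzero i hi h6
    | false =>
      simp only [Bool.false_eq_true, if_false] at h4
      apply hcardone κ
      intro i hi
      by_cases h6 : i = 0
      · rw [h6]; linarith
      · exact hzero i h6 hi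
  obtain ⟨a, ha, haw⟩ := exists_antisymm κ hκκ hκ0 w univ hnonsym
  set A : ZMod n → ℤ := fun i => Helper18.Katz.act m a i with hA
  have hAw : ∀ (i : ZMod n) (ε : Bool), ∑ j, w (i, ε) j * a j =
      A i - (if ε then R else -R) * a i := by
    intro i ε
    simp only [hw, hA]
    rw [act_eq_sum_sub]
    simp only [sub_mul, Finset.sum_sub_distrib, ite_mul, zero_mul, Finset.sum_ite_eq', mem_univ,
      if_true]
  have hAne : ∀ i, A i ≠ R * a i ∧ A i ≠ -(R * a i) := by
    intro i
    have h1 := haw (i, true) (mem_univ _)
    have h2 := haw (i, false) (mem_univ _)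
    rw [hAw] at h1 h2
    simp only [if_true] at h1
    simp only [Bool.false_eq_true, if_false] at h2
    constructor
    · intro h; apply h1; rw [h]; ring
    · intro h; apply h2; rw [h]; ring
  have hAanti : ∀ i, A (i + κ) = -A i := by
    intro i
    simp only [hA, Helper18.Katz.act, ← Finset.sum_neg_distrib]
    apply Finset.sum_congr rfl
    intro t _
    have : i + κ + t = (i + t) + κ := by ring
    rw [this, ha]; ring
  have habs : ∀ i, |A i| ≠ R * |a i| := by
    intro i h
    have h1 : |A i| = |R * a i| := by rw [abs_mul, abs_of_pos hR]; exact h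
    rcases abs_eq_abs.mp h1 with h2 | h2
    · exact (hAne i).1 h2
    · exact (hAne i).2 h2
  set b : ZMod n → ℤ := fun i => if R * |a i| < |A i| then |A i| + R * |a i| else
    -(|A i| + R * |a i|) with hb
  have hbsym : ∀ i, b (i + κ) = b i := by
    intro i
    simp only [hb, ha, hAanti, abs_neg]
  have hactb : ∀ l, Helper18.Katz.act m b l = R * b l := by
    intro l
    have h1 : Helper18.Katz.act m b l + Helper18.Katz.act m b l = 2 * (R * b l) := by
      have h2 : Helper18.Katz.act m b l = ∑ i, m (i + κ) * b (l + i) := by
        unfold Helper18.Katz.act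
        symm
        refine Fintype.sum_equiv (Equiv.addRight κ) _ _ (fun t => ?_)
        simp only [Equiv.coe_addRight]
        have : l + (t + κ) = (l + t) + κ := by ring
        rw [this, hbsym]
      conv_lhs => rw [h2]
      have h3 : Helper18.Katz.act m b l = ∑ i, m i * b (l + i) := rfl
      have h4 : (∑ i, m (i + κ) * b (l + i)) + ∑ i, m i * b (l + i) = 2 * (R * b l) := by
        rw [← Finset.sum_add_distrib]
        have h5 : ∀ i, m (i + κ) * b (l + i) + m i * b (l + i) =
            (if i = 0 then R * b (l + i) else 0) + (if i = κ then R * b (l + i) else 0) := by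
          intro i
          have h6 := hm i
          have h7 : m (i + κ) * b (l + i) + m i * b (l + i) = (m i + m (i + κ)) * b (l + i) := by
            ring
          rw [h7, h6]
          by_cases h8 : i = 0
          · have h9 : ¬ (i = κ) := by rw [h8]; exact fun h => hκ0 h.symm
            simp [h8, hκ0.symm]
          · by_cases h9 : i = κ
            · simp [h9, hκ0]
            · simp [h8, h9]
        simp only [h5, Finset.sum_add_distrib, Finset.sum_ite_eq', mem_univ, if_true]
        rw [add_zero, hbsym]; ring
      rw [← h3, h2] at h4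
      exact h4
    linarith
  set z : ZMod n → ℤ := fun i => 2 * R * a i + b i with hz
  have hactz : ∀ l, Helper18.Katz.act m z l = R * (2 * A l + b l) := by
    intro l
    have h1 : Helper18.Katz.act m z l =
        Helper18.Katz.act m (fun i => 2 * R * a i) l + Helper18.Katz.act m b l := by
      rw [hz]; exact Helper18.Katz.act_add m (fun i => 2 * R * a i) b l
    have h2 : Helper18.Katz.act m (fun i => 2 * R * a i) l = 2 * R * A l := by
      simp only [hA, Helper18.Katz.act, Finset.mul_sum]
      exact Finset.sum_congr rfl fun t _ => by ring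
    rw [h1, h2, hactb]; ring
  -- the local count
  have hpt : ∀ l, z l ≠ 0 ∧ Helper18.Katz.act m z l ≠ 0 ∧
      ((if Helper18.Katz.act m z l < 0 then (1 : ℤ) else 0) +
        (if Helper18.Katz.act m z (l + κ) < 0 then (1 : ℤ) else 0)) -
      ((if z l < 0 then (1 : ℤ) else 0) + (if z (l + κ) < 0 then (1 : ℤ) else 0)) = 1 := by
    intro l
    have e1 : z (l + κ) = -(2 * R * a l) + b l := by simp only [hz, ha, hbsym]; ring
    have e2 : Helper18.Katz.act m z (l + κ) = R * (-(2 * A l) + b l) := by
      rw [hactz, hAanti, hbsym]; ring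
    rw [e1, e2, hactz]
    have hzl : z l = 2 * (R * a l) + b l := by simp only [hz]; ring
    have hRa : -(2 * R * a l) = -(2 * (R * a l)) := by ring
    rw [hzl, hRa]
    have hneg : ∀ x : ℤ, R * x < 0 ↔ x < 0 := fun x => by
      constructor
      · intro h; by_contra hcon; push Not at hcon; nlinarith
      · intro h; nlinarith
    have hne : ∀ x : ℤ, R * x ≠ 0 ↔ x ≠ 0 := fun x => by
      rw [mul_ne_zero_iff]; exact ⟨fun h => h.2, fun h => ⟨hR.ne', h⟩⟩
    simp only [hneg, hne]
    have hRabs : R * |a l| = |R * a l| := by rw [abs_mul, abs_of_pos hR]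
    have hbl : b l = if |R * a l| < |A l| then |A l| + |R * a l| else -(|A l| + |R * a l|) := by
      simp only [hb, hRabs]
    have hab := habs l
    rw [hRabs] at hab
    generalize R * a l = x at *
    generalize A l = y at *
    rw [hbl]
    rcases lt_or_gt_of_ne hab with h1 | h1
    · have h2 : ¬ (|x| < |y|) := not_lt.mpr h1.le
      simp only [h2, if_false]
      have hy1 := le_abs_self y
      have hy2 := neg_abs_le y
      have hx0 : 0 < |x| := (abs_nonneg y).trans_lt h1
      have c1 : 2 * y + -(|y| + |x|) < 0 := by linarith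
      have c2 : -(2 * y) + -(|y| + |x|) < 0 := by linarith
      rcases abs_cases x with ⟨hx, hx'⟩ | ⟨hx, hx'⟩
      · have c3 : ¬ (2 * x + -(|y| + |x|) < 0) := by linarith
        have c4 : -(2 * x) + -(|y| + |x|) < 0 := by linarith [abs_nonneg y]
        have c5 : 2 * x + -(|y| + |x|) ≠ 0 := by
          intro h; linarith
        refine ⟨c5, c1.ne, ?_⟩
        simp only [c1, c2, c3, c4, if_true, if_false]; norm_num
      · have c3 : 2 * x + -(|y| + |x|) < 0 := by linarith [abs_nonneg y]
        have c4 : ¬ (-(2 * x) + -(|y| + |x|) < 0) := by linarith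
        refine ⟨c3.ne, c1.ne, ?_⟩
        simp only [c1, c2, c3, c4, if_true, if_false]; norm_num
    · simp only [h1, if_true]
      have hx1 := le_abs_self x
      have hx2 := neg_abs_le x
      have hy0 : 0 < |y| := (abs_nonneg x).trans_lt h1
      have c1 : ¬ (2 * x + (|y| + |x|) < 0) := by linarith
      have c2 : ¬ (-(2 * x) + (|y| + |x|) < 0) := by linarith
      have c0 : 2 * x + (|y| + |x|) ≠ 0 := by intro h; linarith
      rcases abs_cases y with ⟨hy, hy'⟩ | ⟨hy, hy'⟩
      · have c3 : ¬ (2 * y + (|y| + |x|) < 0) := by linarith [abs_nonneg x]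
        have c4 : -(2 * y) + (|y| + |x|) < 0 := by linarith
        have c5 : 2 * y + (|y| + |x|) ≠ 0 := by intro h; linarith [abs_nonneg x]
        refine ⟨c0, c5, ?_⟩
        simp only [c1, c2, c3, c4, if_true, if_false]; norm_num
      · have c3 : 2 * y + (|y| + |x|) < 0 := by linarith
        have c4 : ¬ (-(2 * y) + (|y| + |x|) < 0) := by linarith [abs_nonneg x]
        refine ⟨c0, c3.ne, ?_⟩
        simp only [c1, c2, c3, c4, if_true, if_false]; norm_num
  refine ⟨z, fun i => (hpt i).1, fun l _ => (hpt l).2.1, ?_⟩
  have hshift : ∀ f : ZMod n → ℤ, ∑ l, f (l + κ) = ∑ l, f l := fun f =>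
    Fintype.sum_equiv (Equiv.addRight κ) _ _ (fun _ => rfl)
  have hcard : ∀ f : ZMod n → ℤ, ((univ.filter (fun l => f l < 0)).card : ℤ) =
      ∑ l, (if f l < 0 then (1 : ℤ) else 0) := by
    intro f
    rw [Finset.card_filter]; push_cast; rfl
  have hsum := Finset.sum_congr (rfl : (univ : Finset (ZMod n)) = univ) (fun l _ => (hpt l).2.2)
  rw [Finset.sum_sub_distrib, Finset.sum_add_distrib, Finset.sum_add_distrib,
    hshift (fun l => if Helper18.Katz.act m z l < 0 then (1 : ℤ) else 0),
    hshift (fun l => if z l < 0 then (1 : ℤ) else 0)] at hsum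
  have hn' : (∑ _l : ZMod n, (1 : ℤ)) = 2 * k := by
    rw [Finset.sum_const, Finset.card_univ, ZMod.card, hn]; simp
  rw [hn'] at hsum
  rw [hcard, hcard]
  linarith

end Pool.Agent.Helper55.KZ
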