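import Pool.Agent.Helper77.KZ.Defs
import Pool.Agent.Helper18.Katz8

/-!
Support file for MP_0aa406_nt (project KZ of helper77), written by helper55: normalisation of the
exponent and twisting by powers of `p`.
-/

set_option autoImplicit false

namespace Pool.Agent.Helper55.KZ

open Finset

theorem pow_dvd_lcm {q : ℕ} (hq : q.Prime) {e a b : ℕ} (ha : a ≠ 0) (hb : b ≠ 0)
    (h : q ^ e ∣ Nat.lcm a b) : q ^ e ∣ a ∨ q ^ e ∣ b := by
  have hl : Nat.lcm a b ≠ 0 := Nat.lcm_ne_zero ha hb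
  rw [hq.pow_dvd_iff_le_factorization hl, Nat.factorization_lcm ha hb] at h
  rw [hq.pow_dvd_iff_le_factorization ha, hq.pow_dvd_iff_le_factorization hb]
  simpa [le_sup_iff] using h

/-- compatible congruences have a common solution -/
theorem crt (S : Finset ℕ) (hS : ∀ s ∈ S, s ≠ 0) (κ : ℕ → ℕ)
    (h : ∀ s ∈ S, ∀ t ∈ S, κ s ≡ κ t [MOD Nat.gcd s t]) :
    ∃ L : ℕ, L ≠ 0 ∧ (∀ s ∈ S, s ∣ L) ∧
      (∀ q e : ℕ, q.Prime → e ≠ 0 → q ^ e ∣ L → ∃ s ∈ S, q ^ e ∣ s) ∧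
      ∃ k : ℕ, ∀ s ∈ S, k ≡ κ s [MOD s] := by
  classical
  induction S using Finset.induction_on with
  | empty =>
    refine ⟨1, one_ne_zero, by simp, ?_, 0, by simp⟩
    intro q e hq he hd
    exfalso
    have h1 : q ^ e = 1 := Nat.dvd_one.mp hd
    have h2 : 1 < q ^ e := Nat.one_lt_pow he hq.one_lt
    omega
  | insert a S ha ih =>
    obtain ⟨L, hL0, hL1, hL2, k, hk⟩ := ih (fun s hs => hS s (mem_insert_of_mem hs))
      (fun s hs t ht => h s (mem_insert_of_mem hs) t (mem_insert_of_mem ht))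
    have ha0 : a ≠ 0 := hS a (mem_insert_self a S)
    have hcomp : k ≡ κ a [MOD Nat.gcd L a] := by
      have hz : ((Nat.gcd L a : ℕ) : ℤ) ∣ (κ a : ℤ) - (k : ℤ) := by
        rw [Int.natCast_dvd, Nat.dvd_iff_prime_pow_dvd_dvd]
        intro q e hq hd
        rcases Nat.eq_zero_or_pos e with he | he
        · rw [he, pow_zero]; exact one_dvd _
        obtain ⟨s, hs, hqs⟩ := hL2 q e hq he.ne' (hd.trans (Nat.gcd_dvd_left _ _))
        have h1 : k ≡ κ s [MOD q ^ e] := (hk s hs).of_dvd hqs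
        have h2 : κ s ≡ κ a [MOD q ^ e] :=
          (h s (mem_insert_of_mem hs) a (mem_insert_self a S)).of_dvd
            (Nat.dvd_gcd hqs (hd.trans (Nat.gcd_dvd_right _ _)))
        have h3 := (Nat.modEq_iff_dvd).mp (h1.trans h2)
        rw [Int.natCast_dvd] at h3
        exact h3
      exact (Nat.modEq_iff_dvd).mpr hz
    obtain ⟨k', hk1, hk2⟩ := Nat.chineseRemainder' hcomp
    refine ⟨Nat.lcm L a, Nat.lcm_ne_zero hL0 ha0, ?_, ?_, k', ?_⟩
    · intro s hs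
      rcases mem_insert.mp hs with rfl | hs
      · exact Nat.dvd_lcm_right _ _
      · exact (hL1 s hs).trans (Nat.dvd_lcm_left _ _)
    · intro q e hq he hd
      rcases pow_dvd_lcm hq hL0 ha0 hd with h1 | h1
      · obtain ⟨s, hs, hqs⟩ := hL2 q e hq he h1
        exact ⟨s, mem_insert_of_mem hs, hqs⟩
      · exact ⟨a, mem_insert_self a S, h1⟩
    · intro s hs
      rcases mem_insert.mp hs with rfl | hs
      · exact hk2
      · exact (hk1.of_dvd (hL1 s hs)).trans (hk s hs)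

theorem pow_modEq_one {p : ℕ} (m k : ℕ) : (p : ℤ) ^ (m * k) ≡ 1 [ZMOD ((p : ℤ) ^ m - 1)] := by
  have h1 : (p : ℤ) ^ m ≡ 1 [ZMOD ((p : ℤ) ^ m - 1)] := by
    rw [Int.modEq_comm]
    exact (Int.modEq_iff_dvd).mpr (dvd_refl _)
  have h2 := h1.pow k
  rwa [one_pow, ← pow_mul] at h2

/-- congruent exponents from congruent powers -/
theorem exp_modEq {p : ℕ} (hp : 2 ≤ p) {m : ℕ} (hm : 0 < m) {a b : ℕ}
    (h : (p : ℤ) ^ a ≡ (p : ℤ) ^ b [ZMOD ((p : ℤ) ^ m - 1)]) : a ≡ b [MOD m] := by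
  have h1 := (Helper18.Katz.pow_modEq_mod (n := m) (p := p) a).symm.trans
    (h.trans (Helper18.Katz.pow_modEq_mod (n := m) (p := p) b))
  have ha := Nat.mod_lt a hm
  have hb := Nat.mod_lt b hm
  have hp1 : (1 : ℤ) ≤ p := by exact_mod_cast (by omega : 1 ≤ p)
  have hbound : ∀ c, c < m → (p : ℤ) ^ c ≤ (p : ℤ) ^ (m - 1) := fun c hc =>
    pow_le_pow_right₀ hp1 (by omega)
  have hpos : ∀ c, (1 : ℤ) ≤ (p : ℤ) ^ c := fun c => one_le_pow₀ hp1
  have hpm : (p : ℤ) ^ m = p * (p : ℤ) ^ (m - 1) := by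
    rw [← pow_succ']; congr 1; omega
  have hbig : (p : ℤ) ^ (m - 1) - 1 < (p : ℤ) ^ m - 1 := by
    rw [hpm]
    have := hpos (m - 1)
    have hp2 : (2 : ℤ) ≤ p := by exact_mod_cast hp
    nlinarith
  have heq : (p : ℤ) ^ (a % m) = (p : ℤ) ^ (b % m) := by
    have hd := h1.dvd
    have habs : |(p : ℤ) ^ (b % m) - (p : ℤ) ^ (a % m)| < (p : ℤ) ^ m - 1 := by
      rw [abs_lt]
      have e1 := hbound _ ha
      have e2 := hbound _ hb
      have e3 := hpos (a % m)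
      have e4 := hpos (b % m)
      constructor <;> linarith
    have := Int.eq_zero_of_abs_lt_dvd hd habs
    linarith
  have hinj : a % m = b % m := by
    have : p ^ (a % m) = p ^ (b % m) := by exact_mod_cast heq
    exact Nat.pow_right_injective hp this
  exact hinj

theorem normalise {p : ℕ} (hp : 2 ≤ p) {n₀ : ℕ} (hn : 0 < n₀) (d : ℤ)
    (h : ∀ n' ∈ n₀.properDivisors, ∃ k : ℕ, d ≡ (p : ℤ) ^ k [ZMOD ((p : ℤ) ^ n' - 1)]) :
    ∃ k : ℕ, ∀ n' ∈ n₀.properDivisors, ((p : ℤ) ^ n' - 1) ∣ d * (p : ℤ) ^ k - 1 := by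
  classical
  have hpos : ∀ n' ∈ n₀.properDivisors, 0 < n' := fun n' hn' =>
    Nat.pos_of_mem_properDivisors hn'
  choose! κ hκ using h
  have hcompat : ∀ s ∈ n₀.properDivisors, ∀ t ∈ n₀.properDivisors,
      κ s ≡ κ t [MOD Nat.gcd s t] := by
    intro s hs t ht
    have hg : 0 < Nat.gcd s t := Nat.gcd_pos_of_pos_left _ (hpos s hs)
    apply exp_modEq hp hg
    have hdvd : ∀ u, Nat.gcd s t ∣ u → ((p : ℤ) ^ (Nat.gcd s t) - 1) ∣ ((p : ℤ) ^ u - 1) := by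
      intro u hu
      obtain ⟨c, rfl⟩ := hu
      have := pow_modEq_one (p := p) (Nat.gcd s t) c
      exact this.symm.dvd
    have h1 := (hκ s hs).of_dvd (hdvd s (Nat.gcd_dvd_left s t))
    have h2 := (hκ t ht).of_dvd (hdvd t (Nat.gcd_dvd_right s t))
    exact h1.symm.trans h2
  obtain ⟨-, -, -, -, k, hk⟩ := crt n₀.properDivisors (fun s hs => (hpos s hs).ne') κ hcompat
  refine ⟨n₀ * k - k, fun n' hn' => ?_⟩
  have hle : k ≤ n₀ * k := Nat.le_mul_of_pos_left k hn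
  have hdn : n' ∣ n₀ := (Nat.mem_properDivisors.mp hn').1
  obtain ⟨c, hc⟩ := hdn
  have h1 : (p : ℤ) ^ (κ n') ≡ (p : ℤ) ^ k [ZMOD ((p : ℤ) ^ n' - 1)] := by
    have e1 := Helper18.Katz.pow_modEq_mod (n := n') (p := p) (κ n')
    have e2 := Helper18.Katz.pow_modEq_mod (n := n') (p := p) k
    have e3 : k % n' = κ n' % n' := hk n' hn'
    rw [e3] at e2
    exact e1.trans e2.symm
  have h2 : d * (p : ℤ) ^ (n₀ * k - k) ≡ (p : ℤ) ^ (n₀ * k) [ZMOD ((p : ℤ) ^ n' - 1)] := by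
    have e1 := ((hκ n' hn').trans h1).mul_right ((p : ℤ) ^ (n₀ * k - k))
    rw [← pow_add] at e1
    have e2 : k + (n₀ * k - k) = n₀ * k := by omega
    rwa [e2] at e1
  have h3 : (p : ℤ) ^ (n₀ * k) ≡ 1 [ZMOD ((p : ℤ) ^ n' - 1)] := by
    rw [hc, mul_assoc]
    exact pow_modEq_one n' (c * k)
  exact (h2.trans h3).symm.dvd

section

variable {n : ℕ}

theorem W_pow_mul {p : ℕ} [NeZero n] (k : ℕ) (x : ℤ) :
    Helper18.Katz.W p n ((p : ℤ) ^ k * x) = Helper18.Katz.W p n x := by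
  unfold Helper18.Katz.W
  refine Fintype.sum_equiv (Equiv.addRight (k : ZMod n)) _ _ (fun j => ?_)
  have h1 : (p : ℤ) ^ j.val * ((p : ℤ) ^ k * x) ≡ (p : ℤ) ^ (j + (k : ZMod n)).val * x
      [ZMOD ((p : ℤ) ^ n - 1)] := by
    rw [← mul_assoc]
    apply Int.ModEq.mul_right
    have h2 := Helper18.Katz.pow_modEq_mod (n := n) (p := p) k
    rw [← ZMod.val_natCast n k] at h2
    exact (h2.mul_left _).trans (Helper18.Katz.pow_val_add j (k : ZMod n))
  exact h1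

theorem good_twist {p : ℕ} [NeZero n] (hp : 2 ≤ p) (d : ℤ) (k : ℕ) (c : ℤ)
    (h : Helper18.Katz.Good p n (d * (p : ℤ) ^ k) c) : Helper18.Katz.Good p n d c := by
  obtain ⟨a, ha, hW⟩ := h
  refine ⟨a, ha, ?_⟩
  have h1 : d * (p : ℤ) ^ k * a = (p : ℤ) ^ k * (d * a) := by ring
  rwa [h1, W_pow_mul] at hW

end

end Pool.Agent.Helper55.KZ
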